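import Pool.Agent.H7.JB.Stmts
import Pool.Agent.H41.HZ.FND

/-!
Row FNDW of the board jb14 (MP_fd41b2_co): a good clique of clean vertices, for the weak conditions `PrW`
(the proof of the row FND of the board hz12, by helper41)
-/

set_option autoImplicit false

open Finset

namespace Pool.JB7

open Pool.Agent.H23.KT Pool.Agent.H46.KW Pool.KQ Pool.GT7 Pool.GU7 Pool.HZ7

theorem fndw_thm (hT : TRVStmt) (hB : BRKStmt) : FNDWStmt := by
  classical
  intro p r hpr C hC
  have hp : (0 : ℝ) ≤ p := Nat.cast_nonneg p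
  set β : ℝ := (p : ℝ) + 4 with hβ
  have hβ0 : 0 < β := by linarith
  set ε : ℝ := 1 / (8 * β * (1 + 4 * β) * 2 ^ (p + 3)) with hε
  set c : ℝ := 8 * C * β ^ (p + 3) with hc
  have hε0 : 0 < ε := by positivity
  have hc0 : 0 < c := by positivity
  have hε2 : ε ≤ 1 / 2 := by
    rw [hε]
    apply one_div_le_one_div_of_le (by norm_num)
    have h1 : (1 : ℝ) ≤ 2 ^ (p + 3) := one_le_pow₀ (by norm_num)
    have h2 : (2 : ℝ) ≤ 8 * β * (1 + 4 * β) := by nlinarith
    calc (2 : ℝ) = 2 * 1 := by ring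
      _ ≤ 8 * β * (1 + 4 * β) * 2 ^ (p + 3) :=
        mul_le_mul h2 h1 (by norm_num) (by positivity)
  refine ⟨ε, c, hε0, hc0, ?_⟩
  intro e he0 he
  obtain ⟨a₀, ha₀⟩ := exists_nat_ge (8 * C * 2 ^ (p + 1) : ℝ)
  refine ⟨max a₀ (r + 1), ?_⟩
  intro a ha V _ _ G hG hne D P hD hcard
  have haa : a₀ ≤ a := (le_max_left _ _).trans ha
  have har : r + 1 ≤ a := (le_max_right _ _).trans ha
  have ha1 : 1 ≤ a := by omega
  have hA : (1 : ℝ) ≤ a := by exact_mod_cast ha1
  have haC : 8 * C * 2 ^ (p + 1) ≤ (a : ℝ) := ha₀.trans (by exact_mod_cast haa)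
  set Δ : ℕ := (p + 3) * a + r with hΔ
  have hΔβ : (Δ : ℝ) ≤ β * a := by
    have h1 : (r : ℝ) ≤ a := by exact_mod_cast (show r ≤ a by omega)
    rw [hΔ, hβ]
    push_cast
    linarith
  have hm : (0 : ℝ) < Fintype.card V := by exact_mod_cast Fintype.card_pos
  by_contra hcon
  set B₂ : Finset V := D.filter (fun v => 1 / 4 * (a : ℝ) < ((nb G univ v \ D).card : ℝ)) with hB₂
  set Bad : Finset V := (univ \ D) ∪ B₂ with hBad
  set T : V → Finset V := fun v => (nb G univ v).filter (fun y => ∃ j k, k ≠ j ∧ y ∈ P v j ∧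
    c < ((non G (P v k) y).card : ℝ)) with hTdef
  have hcov : ∀ K ∈ clq G univ (p + 4), (∃ v ∈ Bad, v ∈ K) ∨
      (∃ v ∈ D, ∃ y ∈ T v, v ∈ K ∧ y ∈ K) := by
    intro K hK
    by_contra hno
    rw [not_or] at hno
    obtain ⟨hno1, hno2⟩ := hno
    apply hcon
    obtain ⟨_, hK2, hK3⟩ := (mem_clq G).1 hK
    let φ := K.equivFinOfCardEq hK2
    have hmem : ∀ i, ((φ.symm i : K) : V) ∈ K := fun i => (φ.symm i).2
    have hinj : ∀ i j, i ≠ j → ((φ.symm i : K) : V) ≠ ((φ.symm j : K) : V) := by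
      intro i j hij h
      exact hij (φ.symm.injective (Subtype.ext h))
    have hadj : ∀ i j, i ≠ j → G.Adj ((φ.symm i : K) : V) ((φ.symm j : K) : V) := fun i j hij =>
      hK3 (mem_coe.2 (hmem i)) (mem_coe.2 (hmem j)) (hinj i j hij)
    have hDm : ∀ i, ((φ.symm i : K) : V) ∈ D := by
      intro i
      by_contra hn
      exact hno1 ⟨_, mem_union_left _ (mem_sdiff.2 ⟨mem_univ _, hn⟩), hmem i⟩
    refine ⟨fun i => ((φ.symm i : K) : V), hadj, hDm, ?_, ?_⟩
    · intro i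
      by_contra hn
      exact hno1 ⟨_, mem_union_right _ (mem_filter.2 ⟨hDm i, not_le.1 hn⟩), hmem i⟩
    · intro i l hil j hj k hkj
      by_contra hn
      apply hno2
      refine ⟨_, hDm i, _, ?_, hmem i, hmem l⟩
      rw [hTdef]
      exact mem_filter.2 ⟨(mem_nb G).2 ⟨mem_univ _, hadj i l hil⟩, j, k, hkj, hj, not_le.1 hn⟩
  have hsub : clq G univ (p + 4) ⊆
      Bad.biUnion (fun v => (clq G univ (p + 3 + 1)).filter (fun K => v ∈ K)) ∪
      D.biUnion (fun v => (T v).biUnion (fun y =>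
        (clq G univ (p + 2 + 2)).filter (fun K => v ∈ K ∧ y ∈ K))) := by
    intro K hK
    rw [mem_union]
    rcases hcov K hK with ⟨v, hv, hvK⟩ | ⟨v, hv, y, hy, hvK, hyK⟩
    · left
      rw [mem_biUnion]
      exact ⟨v, hv, mem_filter.2 ⟨hK, hvK⟩⟩
    · right
      rw [mem_biUnion]
      refine ⟨v, hv, ?_⟩
      rw [mem_biUnion]
      exact ⟨y, hy, mem_filter.2 ⟨hK, hvK, hyK⟩⟩
  have hN1 : kc G univ (p + 4) ≤ ∑ v ∈ Bad, kc G (nb G univ v) (p + 3) +
      ∑ v ∈ D, (T v).card * Δ ^ (p + 2) := by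
    rw [kc_eq]
    refine (card_le_card hsub).trans ((card_union_le _ _).trans ?_)
    refine Nat.add_le_add ?_ ?_
    · refine card_biUnion_le.trans (le_of_eq ?_)
      exact sum_congr rfl (fun v _ => fnd_thr G v (p + 3))
    · refine card_biUnion_le.trans (sum_le_sum (fun v _ => ?_))
      refine card_biUnion_le.trans ?_
      rw [← smul_eq_mul]
      apply sum_le_card_nsmul
      intro y hy
      apply fnd_two G v y _ (p + 2) Δ (hG.deg v)
      rintro rfl
      have := (mem_nb G).1 (mem_filter.1 hy).1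
      exact G.loopless.irrefl _ this.2
  set m : ℝ := (Fintype.card V : ℝ) with hmdef
  set X : ℝ := (a : ℝ) ^ (p + 3) with hX
  have hX0 : 0 < X := by positivity
  -- the bad vertices
  have hB1 : 1 / 4 * (a : ℝ) * B₂.card ≤ ((univ \ D).card : ℝ) * (β * a) := by
    have h1 := fnd_b2 G D Δ hG.deg
    have h2 : ∑ v, ((nb G univ v \ D).card : ℝ) ≤ ((univ \ D).card : ℝ) * Δ := by
      exact_mod_cast h1
    have h3 : 1 / 4 * (a : ℝ) * B₂.card ≤ ∑ v ∈ B₂, ((nb G univ v \ D).card : ℝ) := by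
      rw [mul_comm, ← nsmul_eq_mul]
      exact card_nsmul_le_sum _ _ _ (fun v hv => (mem_filter.1 hv).2.le)
    have h4 : ∑ v ∈ B₂, ((nb G univ v \ D).card : ℝ) ≤ ∑ v, ((nb G univ v \ D).card : ℝ) :=
      sum_le_sum_of_subset_of_nonneg (subset_univ _) (fun _ _ _ => Nat.cast_nonneg _)
    have h5 : ((univ \ D).card : ℝ) * Δ ≤ ((univ \ D).card : ℝ) * (β * a) :=
      mul_le_mul_of_nonneg_left hΔβ (Nat.cast_nonneg _)
    linarith
  have hB2 : (B₂.card : ℝ) ≤ 4 * β * ((univ \ D).card : ℝ) := by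
    have h1 : (a : ℝ) * B₂.card ≤ a * (4 * β * ((univ \ D).card : ℝ)) := by nlinarith
    exact le_of_mul_le_mul_left h1 (by linarith)
  have hBadc : (Bad.card : ℝ) ≤ (1 + 4 * β) * (ε * m) := by
    have h1 : (Bad.card : ℝ) ≤ ((univ \ D).card : ℝ) + B₂.card := by
      exact_mod_cast card_union_le (univ \ D) B₂
    calc (Bad.card : ℝ) ≤ (1 + 4 * β) * ((univ \ D).card : ℝ) := by linarith
      _ ≤ (1 + 4 * β) * (ε * m) := mul_le_mul_of_nonneg_left hcard (by positivity)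
  have hS1 : ∑ v ∈ Bad, (kc G (nb G univ v) (p + 3) : ℝ) ≤ m * X / (8 * β) := by
    have h1 : ∑ v ∈ Bad, (kc G (nb G univ v) (p + 3) : ℝ) ≤ Bad.card * (2 ^ (p + 3) * X) := by
      rw [← nsmul_eq_mul]
      apply sum_le_card_nsmul
      intro v _
      refine (fnd_up G p r a hpr.rp hG v).trans ?_
      rw [hX, ← mul_pow]
      exact pow_le_pow_left₀ (by positivity) (by linarith) _
    refine h1.trans ?_
    calc (Bad.card : ℝ) * (2 ^ (p + 3) * X) ≤ (1 + 4 * β) * (ε * m) * (2 ^ (p + 3) * X) :=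
          mul_le_mul_of_nonneg_right hBadc (by positivity)
      _ = m * X / (8 * β) := by
          rw [hε]
          field_simp
  -- the atypical pairs
  have hS2 : ∑ v ∈ D, ((T v).card : ℝ) * (Δ : ℝ) ^ (p + 2) ≤ m * X / (8 * β) := by
    have h1 : ∀ v ∈ D, ((T v).card : ℝ) * (Δ : ℝ) ^ (p + 2) ≤ X / (8 * β) := by
      intro v hv
      have h2 := fnd_tcard G p (P v) c hc0 (T v) (by
        intro y hy
        exact (mem_filter.1 hy).2)
      have h3 := (hD v hv).2.tot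
      have h4 : ((T v).card : ℝ) ≤ C * a / c := by
        rw [le_div_iff₀ hc0]
        linarith
      have h5 : (Δ : ℝ) ^ (p + 2) ≤ (β * a) ^ (p + 2) :=
        pow_le_pow_left₀ (Nat.cast_nonneg _) hΔβ _
      calc ((T v).card : ℝ) * (Δ : ℝ) ^ (p + 2) ≤ (C * a / c) * (β * a) ^ (p + 2) :=
            mul_le_mul h4 h5 (by positivity) (by positivity)
        _ = X / (8 * β) := by
            rw [hc, hX, mul_pow]
            field_simp
            ring
    have h2 : ∑ v ∈ D, ((T v).card : ℝ) * (Δ : ℝ) ^ (p + 2) ≤ D.card * (X / (8 * β)) := by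
      rw [← nsmul_eq_mul]
      exact sum_le_card_nsmul _ _ _ h1
    have h3 : (D.card : ℝ) ≤ m := by
      rw [hmdef]
      exact_mod_cast card_le_univ D
    calc ∑ v ∈ D, ((T v).card : ℝ) * (Δ : ℝ) ^ (p + 2) ≤ D.card * (X / (8 * β)) := h2
      _ ≤ m * (X / (8 * β)) := mul_le_mul_of_nonneg_right h3 (by positivity)
      _ = m * X / (8 * β) := by ring
  have hN2 : (kc G univ (p + 4) : ℝ) ≤ m * X / (8 * β) + m * X / (8 * β) := by
    have h1 : (kc G univ (p + 4) : ℝ) ≤ ∑ v ∈ Bad, (kc G (nb G univ v) (p + 3) : ℝ) +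
        ∑ v ∈ D, ((T v).card : ℝ) * (Δ : ℝ) ^ (p + 2) := by
      exact_mod_cast hN1
    linarith
  -- the lower bound
  have hL : 3 / 4 * X * D.card ≤ β * (kc G univ (p + 4) : ℝ) := by
    have h1 := fnd_dbl G (p + 3)
    have h2 : ∑ v, (kc G (nb G univ v) (p + 3) : ℝ) = ((p : ℝ) + 3 + 1) * kc G univ (p + 3 + 1) := by
      exact_mod_cast h1
    have h3 : 3 / 4 * X * D.card ≤ ∑ v ∈ D, (kc G (nb G univ v) (p + 3) : ℝ) := by
      rw [mul_comm, ← nsmul_eq_mul]
      exact card_nsmul_le_sum _ _ _ (fun v hv =>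
        fnd_low G hT hB p r a e C ha1 haC he0 he v (P v) (hD v hv))
    have h4 : ∑ v ∈ D, (kc G (nb G univ v) (p + 3) : ℝ) ≤
        ∑ v, (kc G (nb G univ v) (p + 3) : ℝ) :=
      sum_le_sum_of_subset_of_nonneg (subset_univ _) (fun _ _ _ => Nat.cast_nonneg _)
    have h5 : β = (p : ℝ) + 3 + 1 := by rw [hβ]; ring
    rw [h5]
    exact h3.trans (h4.trans h2.le)
  have hDc : m / 2 ≤ D.card := by
    have h1 : (univ \ D).card + D.card = Fintype.card V := by
      rw [card_sdiff_add_card_eq_card (subset_univ D), card_univ]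
    have h2 : ((univ \ D).card : ℝ) + D.card = m := by
      rw [hmdef]
      exact_mod_cast h1
    nlinarith
  have hN3 : β * (kc G univ (p + 4) : ℝ) ≤ m * X / 4 := by
    calc β * (kc G univ (p + 4) : ℝ) ≤ β * (m * X / (8 * β) + m * X / (8 * β)) :=
          mul_le_mul_of_nonneg_left hN2 hβ0.le
      _ = m * X / 4 := by
          field_simp
          ring
  have h1 : 0 < m * X := mul_pos hm hX0
  nlinarith

end Pool.JB7
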